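import Mathlib

/-!
# Project NR (helper50), module RKQ, part 1: abelian groups with an action of an elementary abelian `2`-group
-/

set_option autoImplicit false

namespace Pool.Agent.L0h37.NR

/-- the characters of a finite group of exponent `2` -/
theorem exists_chars (G : Type) [Group G] [Finite G] (h2 : ∀ g : G, g * g = 1) :
    ∃ χ : Fin (Nat.card G) → (G →* ℤˣ), ∀ g : G, g ≠ 1 → ∑ i, (χ i g : ℤ) = 0 := by
  classical
  have hcomm : ∀ σ τ : G, σ * τ = τ * σ := by
    intro σ τ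
    have h1 : ∀ σ : G, σ⁻¹ = σ := fun σ => inv_eq_of_mul_eq_one_left (h2 σ)
    have h3 : (σ * τ)⁻¹ = τ * σ := by rw [mul_inv_rev, h1, h1]
    rw [← h1 (σ * τ), h3]
  let _ : CommGroup G := { (inferInstance : Group G) with mul_comm := hcomm }
  have h2' : HasEnoughRootsOfUnity ℤ 2 :=
    ⟨⟨-1, IsPrimitiveRoot.neg_one 0 (by decide)⟩, inferInstance⟩
  have : HasEnoughRootsOfUnity ℤ (Monoid.exponent G) :=
    HasEnoughRootsOfUnity.of_dvd ℤ (n := 2)
      (Monoid.exponent_dvd_of_forall_pow_eq_one fun g => by rw [pow_two, h2])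
  have hcard := CommGroup.card_monoidHom_of_hasEnoughRootsOfUnity G ℤ
  have : Finite (G →* ℤˣ) := by
    apply Nat.finite_of_card_ne_zero
    rw [hcard]
    exact Nat.card_pos.ne'
  let e : Fin (Nat.card G) ≃ (G →* ℤˣ) := (Finite.equivFinOfCardEq hcard).symm
  refine ⟨e, fun g hg => ?_⟩
  have := Fintype.ofFinite (G →* ℤˣ)
  obtain ⟨φ, hφ⟩ := CommGroup.exists_apply_ne_one_of_hasEnoughRootsOfUnity G ℤ hg
  have hφ' : (φ g : ℤ) = -1 := by
    rcases Int.units_eq_one_or (φ g) with h | h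
    · exact absurd h hφ
    · rw [h]; rfl
  have h1 : ∑ i, (e i g : ℤ) = ∑ χ : G →* ℤˣ, (χ g : ℤ) :=
    Fintype.sum_equiv e _ _ fun i => rfl
  have h3 : ∑ χ : G →* ℤˣ, (χ g : ℤ) = ∑ χ : G →* ℤˣ, ((φ * χ) g : ℤ) :=
    (Fintype.sum_equiv (Equiv.mulLeft φ) _ _ fun χ => rfl).symm
  have h4 : ∑ χ : G →* ℤˣ, ((φ * χ) g : ℤ) = - ∑ χ : G →* ℤˣ, (χ g : ℤ) := by
    rw [← Finset.sum_neg_distrib]
    refine Finset.sum_congr rfl fun χ _ => ?_
    rw [MonoidHom.mul_apply, Units.val_mul, hφ']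
    ring
  rw [h1]
  linarith [h3.trans h4]

theorem finrank_le_sum {M ι : Type} [AddCommGroup M] [Module.Finite ℤ M] (s : Finset ι)
    (N : ι → Submodule ℤ M) (n : ℤ) (hn : n ≠ 0) (h : ∀ P : M, n • P ∈ ⨆ i ∈ s, N i) :
    Module.finrank ℤ M ≤ ∑ i ∈ s, Module.finrank ℤ (N i) := by
  classical
  have key : ∀ s : Finset ι, Module.finrank ℤ (⨆ i ∈ s, N i : Submodule ℤ M) ≤
      ∑ i ∈ s, Module.finrank ℤ (N i) := by
    intro s
    induction s using Finset.induction_on with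
    | empty =>
      have h0 : (⨆ i ∈ (∅ : Finset ι), N i : Submodule ℤ M) = ⊥ := by simp
      rw [h0]
      simp
    | insert a s ha ih =>
      rw [Finset.sum_insert ha, Finset.iSup_insert]
      have h1 := Submodule.rank_add_le_rank_add_rank (N a) (⨆ i ∈ s, N i)
      rw [← Module.finrank_eq_rank, ← Module.finrank_eq_rank, ← Module.finrank_eq_rank] at h1
      have h2 : Module.finrank ℤ (N a ⊔ ⨆ i ∈ s, N i : Submodule ℤ M) ≤
          Module.finrank ℤ (N a) + Module.finrank ℤ (⨆ i ∈ s, N i : Submodule ℤ M) := by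
        exact_mod_cast h1
      omega
  refine le_trans ?_ (key s)
  let f : M →ₗ[ℤ] M := LinearMap.lsmul ℤ M n
  have hker : LinearMap.ker f ≤ Submodule.torsion ℤ M := by
    intro x hx
    rw [Submodule.mem_torsion_iff]
    exact ⟨⟨n, mem_nonZeroDivisors_of_ne_zero hn⟩, hx⟩
  rw [← finrank_quotient_eq_of_le_torsion hker, LinearEquiv.finrank_eq f.quotKerEquivRange]
  have hle : LinearMap.range f ≤ ⨆ i ∈ s, N i := by
    rintro _ ⟨x, rfl⟩
    exact h x
  exact LinearMap.finrank_le_finrank_of_injective (Submodule.inclusion_injective hle)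

/-- the rank is at most the sum of the ranks of the eigenspaces -/
theorem finrank_le_eig {M G : Type} [AddCommGroup M] [Module.Finite ℤ M] [Group G] [Finite G]
    (ρ : G → M →+ M) (hmul : ∀ σ τ x, ρ (σ * τ) x = ρ σ (ρ τ x)) (hone : ∀ x, ρ 1 x = x)
    (χ : Fin (Nat.card G) → (G →* ℤˣ)) (hχ : ∀ g : G, g ≠ 1 → ∑ i, (χ i g : ℤ) = 0)
    (N : Fin (Nat.card G) → Submodule ℤ M)
    (hN : ∀ i, ∀ P : M, P ∈ N i ↔ ∀ σ, ρ σ P = (χ i σ : ℤ) • P) :
    Module.finrank ℤ M ≤ ∑ i, Module.finrank ℤ (N i) := by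
  classical
  have := Fintype.ofFinite G
  refine finrank_le_sum Finset.univ N (Nat.card G) (by exact_mod_cast Nat.card_pos.ne') fun P => ?_
  have h1 : ∀ i, (∑ σ, (χ i σ : ℤ) • ρ σ P) ∈ N i := by
    intro i
    rw [hN]
    intro τ
    rw [map_sum, Finset.smul_sum]
    refine Fintype.sum_equiv (Equiv.mulLeft τ) _ _ fun σ => ?_
    rw [Equiv.coe_mulLeft, map_mul, map_zsmul, hmul, Units.val_mul, smul_smul, ← mul_assoc,
      ← Units.val_mul, Int.units_mul_self, Units.val_one, one_mul]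
  have h2 : ((Nat.card G : ℕ) : ℤ) • P = ∑ i, ∑ σ, (χ i σ : ℤ) • ρ σ P := by
    rw [Finset.sum_comm, Finset.sum_eq_single (1 : G)]
    · simp [hone]
    · intro σ _ hσ
      rw [← Finset.sum_smul, hχ σ hσ, zero_smul]
    · intro h
      exact absurd (Finset.mem_univ _) h
  rw [h2]
  refine Submodule.sum_mem _ fun i _ => ?_
  exact Submodule.mem_iSup_of_mem i (Submodule.mem_iSup_of_mem (Finset.mem_univ i) (h1 i))

/-- every character of the Galois group occurs in the field -/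
theorem exists_eigvec {F K : Type} [Field F] [Field K] [Algebra F K] [FiniteDimensional F K]
    (χ : (K ≃ₐ[F] K) →* ℤˣ) :
    ∃ t : K, t ≠ 0 ∧ ∀ σ : K ≃ₐ[F] K, σ t = ((χ σ : ℤ) : K) * t := by
  classical
  by_contra hc
  push Not at hc
  have h0 : ∀ a : K, ∑ σ : K ≃ₐ[F] K, ((χ σ : ℤ) : K) * σ a = 0 := by
    intro a
    by_contra hne
    obtain ⟨τ, hτ⟩ := hc _ hne
    apply hτ
    rw [map_sum, Finset.mul_sum]
    refine Fintype.sum_equiv (Equiv.mulLeft τ) _ _ fun σ => ?_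
    rw [Equiv.coe_mulLeft, map_mul, map_mul, map_intCast, Units.val_mul, Int.cast_mul, ← mul_assoc,
      ← mul_assoc, ← Int.cast_mul, ← Units.val_mul, Int.units_mul_self, Units.val_one,
      Int.cast_one, one_mul]
    rfl
  have hli := (linearIndependent_monoidHom K K).comp
    (fun σ : K ≃ₐ[F] K => ((σ : K →ₐ[F] K) : K →* K)) (by
      intro σ τ h
      ext x
      exact DFunLike.congr_fun h x)
  rw [Fintype.linearIndependent_iff] at hli
  have h1 := hli (fun σ => ((χ σ : ℤ) : K)) (by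
    ext a
    simp only [Function.comp, Finset.sum_apply, Pi.smul_apply, smul_eq_mul, Pi.zero_apply]
    exact h0 a) 1
  rw [map_one] at h1
  simp at h1

end Pool.Agent.L0h37.NR
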