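import Pool.Agent.L0h50.NR.Stm2
import Pool.Agent.L0h37.NR.RKA
import Pool.Agent.Q286.EQ.MW

/-!
# Project NR (helper50), module RKQ: the rank over a multiquadratic extension
-/

set_option autoImplicit false

open NumberField Polynomial
open scoped Classical

namespace Pool.Agent.L0h37.NR

open Pool.Agent.L0h50.NR Pool.Agent.Y700 WeierstrassCurve

theorem crv_delta {F : Type} [Field F] (A B : F) :
    (crv A B).Δ = -16 * (4 * A ^ 3 + 27 * B ^ 2) := by
  simp only [crv, WeierstrassCurve.Δ, WeierstrassCurve.b₂, WeierstrassCurve.b₄,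
    WeierstrassCurve.b₆, WeierstrassCurve.b₈]
  ring

theorem crv_bc {F K : Type} [Field F] [Field K] [Algebra F K] (A B : F) :
    (crv A B).baseChange K = crv (algebraMap F K A) (algebraMap F K B) := by
  simp [crv, WeierstrassCurve.baseChange, WeierstrassCurve.map]

theorem crv_ne {F : Type} [Field F] [CharZero F] {A B : F} (h : 4 * A ^ 3 + 27 * B ^ 2 ≠ 0) :
    (crv A B).Δ ≠ 0 := by
  rw [crv_delta]
  exact mul_ne_zero (by norm_num) h

/-- the twisted curves -/
theorem crv_vr {F K : Type} [Field F] [Field K] [Algebra F K] (A B d : F) (t : K) (ht : t ≠ 0)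
    (hd : algebraMap F K d = t ^ 2) :
    VR ((crv (d ^ 2 * A) (d ^ 3 * B)).baseChange K) ((crv A B).baseChange K) t 0 0 0 := by
  rw [crv_bc, crv_bc]
  refine ⟨ht, ?_, ?_, ?_, ?_, ?_⟩
  · simp [crv]
  · simp [crv]
  · simp [crv]
  · simp only [crv, map_mul, map_pow, hd]
    ring
  · simp only [crv, map_mul, map_pow, hd]
    ring

theorem eig_le {F K : Type} [Field F] [NumberField F] [Field K] [NumberField K] [Algebra F K]
    [IsGalois F K] (A B : F) (hAB : 4 * A ^ 3 + 27 * B ^ 2 ≠ 0) (χ : (K ≃ₐ[F] K) →* ℤˣ) (t : K)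
    (d : F) (ht : t ≠ 0) (hd : algebraMap F K d = t ^ 2)
    (hσ : ∀ σ : K ≃ₐ[F] K, σ t = ((χ σ : ℤ) : K) * t)
    (N : Submodule ℤ ((crv A B).baseChange K).toAffine.Point)
    (hN : ∀ P ∈ N, ∀ σ : K ≃ₐ[F] K,
      Affine.Point.map (W' := (crv A B).toAffine) (σ : K →ₐ[F] K) P = (χ σ : ℤ) • P) :
    Module.finrank ℤ N ≤
      Module.finrank ℤ ((crv (d ^ 2 * A) (d ^ 3 * B)).baseChange F).toAffine.Point := by
  have hd0 : d ≠ 0 := by
    rintro rfl
    rw [map_zero] at hd
    exact ht (pow_eq_zero_iff two_ne_zero |>.1 hd.symm)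
  have hV := crv_vr A B d t ht hd
  have hD : ((crv A B).baseChange K).Δ ≠ 0 := by
    rw [crv_bc]
    apply crv_ne
    have h1 : algebraMap F K (4 * A ^ 3 + 27 * B ^ 2) ≠ 0 := (_root_.map_ne_zero _).2 hAB
    simpa only [map_add, map_mul, map_pow, map_ofNat] using h1
  have hD' : ((crv (d ^ 2 * A) (d ^ 3 * B)).baseChange F).Δ ≠ 0 := by
    rw [crv_bc, Algebra.algebraMap_self, RingHom.id_apply, RingHom.id_apply]
    apply crv_ne
    have h1 : 4 * (d ^ 2 * A) ^ 3 + 27 * (d ^ 3 * B) ^ 2 = d ^ 6 * (4 * A ^ 3 + 27 * B ^ 2) := by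
      ring
    rw [h1]
    exact mul_ne_zero (pow_ne_zero _ hd0) hAB
  have hfg := Pool.Agent.Q286.EQ.mordell_weil F ((crv (d ^ 2 * A) (d ^ 3 * B)).baseChange F) hD'
  have hfin : Module.Finite ℤ ((crv (d ^ 2 * A) (d ^ 3 * B)).baseChange F).toAffine.Point :=
    Module.Finite.iff_addGroup_fg.2 hfg
  let T := (hV.equiv hD).toAddMonoidHom.toIntLinearMap
  have hT : Function.Injective T := (hV.equiv hD).injective
  let j : ((crv (d ^ 2 * A) (d ^ 3 * B)).baseChange F).toAffine.Point →ₗ[ℤ]
      ((crv (d ^ 2 * A) (d ^ 3 * B)).baseChange K).toAffine.Point :=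
    (Affine.Point.map (W' := (crv (d ^ 2 * A) (d ^ 3 * B)).toAffine)
      (Algebra.ofId F K)).toIntLinearMap
  have hj : Function.Injective j := Affine.Point.map_injective (Algebra.ofId F K)
  have hfix : ∀ z : K, (∀ σ : K ≃ₐ[F] K, σ z = z) → ∃ q : F, algebraMap F K q = z := fun z hz =>
    (IsGalois.mem_range_algebraMap_iff_fixed z).2 hz
  have hmem : ∀ P ∈ N, ∃ Q, j Q = T P := by
    intro P hP
    have hP' := hN P hP
    rcases P with _ | ⟨x, y, h⟩
    · exact ⟨0, rfl⟩
    · have hxy : ∀ σ : K ≃ₐ[F] K, σ x = x ∧ σ y = ((χ σ : ℤ) : K) * y := by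
        intro σ
        have h1 := hP' σ
        rw [Affine.Point.map_some] at h1
        rcases Int.units_eq_one_or (χ σ) with h2 | h2
        · rw [h2, Units.val_one, one_smul] at h1
          simp only [Affine.Point.some.injEq] at h1
          rw [h2, Units.val_one, Int.cast_one, one_mul]
          exact h1
        · rw [h2, Units.val_neg, Units.val_one, neg_smul, one_smul, Affine.Point.neg_some] at h1
          simp only [Affine.Point.some.injEq] at h1
          rw [h2, Units.val_neg, Units.val_one, Int.cast_neg, Int.cast_one, neg_mul, one_mul]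
          refine ⟨h1.1, h1.2.trans ?_⟩
          simp [WeierstrassCurve.Affine.negY, crv, WeierstrassCurve.baseChange,
            WeierstrassCurve.map]
      have hχ2 : ∀ σ : K ≃ₐ[F] K, ((χ σ : ℤ) : K) * ((χ σ : ℤ) : K) = 1 := by
        intro σ
        rw [← Int.cast_mul, ← Units.val_mul, Int.units_mul_self, Units.val_one, Int.cast_one]
      obtain ⟨X, hX⟩ := hfix (t ^ 2 * x + 0) fun σ => by
        rw [map_add, map_mul, map_pow, hσ, (hxy σ).1, map_zero]
        linear_combination (t ^ 2 * x) * hχ2 σ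
      obtain ⟨Y, hY⟩ := hfix (t ^ 3 * y + t ^ 2 * 0 * x + 0) fun σ => by
        rw [map_add, map_add, map_mul, map_mul, map_mul, map_pow, map_pow, hσ, (hxy σ).2, map_zero]
        linear_combination (t ^ 3 * y * (((χ σ : ℤ) : K) * ((χ σ : ℤ) : K) + 1)) * hχ2 σ
      have hns : ((crv (d ^ 2 * A) (d ^ 3 * B)).baseChange K).toAffine.Nonsingular
          (algebraMap F K X) (algebraMap F K Y) := by
        rw [hX, hY]
        exact nonsing (hV.delta_ne hD) (hV.eqn.2 h.1)
      have hns' : ((crv (d ^ 2 * A) (d ^ 3 * B)).baseChange F).toAffine.Nonsingular X Y :=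
        ((crv (d ^ 2 * A) (d ^ 3 * B)).toAffine.baseChange_nonsingular (f := Algebra.ofId F K)
          (algebraMap F K).injective X Y).1 hns
      refine ⟨.some X Y hns', ?_⟩
      change (Affine.Point.some (algebraMap F K X) (algebraMap F K Y) _ :
        ((crv (d ^ 2 * A) (d ^ 3 * B)).baseChange K).toAffine.Point) = .some _ _ _
      simp only [Affine.Point.some.injEq]
      exact ⟨hX, hY⟩
  have hle : N.map T ≤ LinearMap.range j := by
    rintro _ ⟨P, hP, rfl⟩
    exact hmem P hP
  have hfr : Module.Finite ℤ (LinearMap.range j) := inferInstance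
  calc Module.finrank ℤ N = Module.finrank ℤ (N.map T) :=
        LinearEquiv.finrank_eq (Submodule.equivMapOfInjective T hT N)
    _ ≤ Module.finrank ℤ (LinearMap.range j) :=
        LinearMap.finrank_le_finrank_of_injective (Submodule.inclusion_injective hle)
    _ = _ := (LinearEquiv.finrank_eq (LinearEquiv.ofInjective j hj)).symm

theorem exists_twist {F K : Type} [Field F] [NumberField F] [Field K] [NumberField K] [Algebra F K]
    [IsGalois F K] (χ : (K ≃ₐ[F] K) →* ℤˣ) : ∃ (t : K) (d : 𝓞 F), t ≠ 0 ∧ d ≠ 0 ∧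
      algebraMap F K (d : F) = t ^ 2 ∧ ∀ σ : K ≃ₐ[F] K, σ t = ((χ σ : ℤ) : K) * t := by
  have : FiniteDimensional F K := Module.Finite.of_restrictScalars_finite ℚ F K
  obtain ⟨t, ht, hσ⟩ := exists_eigvec χ
  obtain ⟨q, hq⟩ : ∃ q : F, algebraMap F K q = t ^ 2 := by
    refine (IsGalois.mem_range_algebraMap_iff_fixed _).2 fun σ => ?_
    have hχ2 : ((χ σ : ℤ) : K) * ((χ σ : ℤ) : K) = 1 := by
      rw [← Int.cast_mul, ← Units.val_mul, Int.units_mul_self, Units.val_one, Int.cast_one]
    rw [map_pow, hσ]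
    linear_combination t ^ 2 * hχ2
  obtain ⟨x, y, hy, hxy⟩ := IsFractionRing.div_surjective (A := 𝓞 F) q
  have hy0 : (y : F) ≠ 0 := by
    have := nonZeroDivisors.ne_zero hy
    exact_mod_cast this
  have hyK : algebraMap F K (y : F) ≠ 0 := (_root_.map_ne_zero _).2 hy0
  have hq' : (x : F) = q * y := by
    rw [← hxy]
    exact (div_mul_cancel₀ _ hy0).symm
  have hK : algebraMap F K ((y * x : 𝓞 F) : F) = (algebraMap F K (y : F) * t) ^ 2 := by
    have h1 : ((y * x : 𝓞 F) : F) = (y : F) * (x : F) := rfl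
    rw [h1, map_mul, mul_pow, ← hq, hq', map_mul]
    ring
  refine ⟨algebraMap F K (y : F) * t, y * x, mul_ne_zero hyK ht, ?_, hK, fun σ => ?_⟩
  · intro h0
    rw [h0] at hK
    simp only [map_zero] at hK
    exact pow_ne_zero 2 (mul_ne_zero hyK ht) hK.symm
  · rw [map_mul, AlgEquiv.commutes, hσ]
    ring

theorem rkq : S_RKQ := by
  intro F K _ _ _ _ _ _ h2
  have : FiniteDimensional F K := Module.Finite.of_restrictScalars_finite ℚ F K
  have hcard : Nat.card (K ≃ₐ[F] K) = Module.finrank F K := IsGalois.card_aut_eq_finrank F K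
  obtain ⟨χ, hχ⟩ := exists_chars (K ≃ₐ[F] K) h2
  choose t d ht hd hdt hσ using fun i => exists_twist (χ i)
  let e : Fin (Module.finrank F K) ≃ Fin (Nat.card (K ≃ₐ[F] K)) := finCongr hcard.symm
  refine ⟨fun i => d (e i), fun i => hd _, fun A B hAB => ?_⟩
  have hD : ((crv A B).baseChange K).Δ ≠ 0 := by
    rw [crv_bc]
    apply crv_ne
    have h1 : algebraMap F K (4 * A ^ 3 + 27 * B ^ 2) ≠ 0 := (_root_.map_ne_zero _).2 hAB
    simpa only [map_add, map_mul, map_pow, map_ofNat] using h1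
  have hfg := Pool.Agent.Q286.EQ.mordell_weil K ((crv A B).baseChange K) hD
  have hfin : Module.Finite ℤ ((crv A B).baseChange K).toAffine.Point :=
    Module.Finite.iff_addGroup_fg.2 hfg
  let ρ : (K ≃ₐ[F] K) → ((crv A B).baseChange K).toAffine.Point →+
      ((crv A B).baseChange K).toAffine.Point :=
    fun σ => Affine.Point.map (W' := (crv A B).toAffine) (σ : K →ₐ[F] K)
  let N : Fin (Nat.card (K ≃ₐ[F] K)) → Submodule ℤ ((crv A B).baseChange K).toAffine.Point :=
    fun i => AddSubgroup.toIntSubmodule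
      { carrier := {P | ∀ σ, ρ σ P = (χ i σ : ℤ) • P}
        add_mem' := fun {a b} ha hb σ => by
          rw [map_add, ha σ, hb σ, smul_add]
        zero_mem' := fun σ => by rw [map_zero, smul_zero]
        neg_mem' := fun {a} ha σ => by
          rw [map_neg, ha σ, smul_neg] }
  have hmain := finrank_le_eig ρ (fun σ τ x => by
      change _ = Affine.Point.map (W' := (crv A B).toAffine) (σ : K →ₐ[F] K)
        (Affine.Point.map (W' := (crv A B).toAffine) (τ : K →ₐ[F] K) x)
      rw [Affine.Point.map_map]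
      rfl) (fun x => by rcases x with _ | ⟨x, y, h⟩ <;> rfl) χ hχ N (fun i P => Iff.rfl)
  have key : ∀ (L : Type) [Field L] (W W' : WeierstrassCurve L), W = W' →
      Module.finrank ℤ W'.toAffine.Point = Module.finrank ℤ W.toAffine.Point := by
    rintro L _ W W' rfl
    rfl
  rw [key K _ _ (crv_bc A B)]
  refine hmain.trans ?_
  have h3 : ∑ i, Module.finrank ℤ (crv ((d (e i) : F) ^ 2 * A) ((d (e i) : F) ^ 3 * B)).toAffine.Point
      = ∑ i, Module.finrank ℤ (crv ((d i : F) ^ 2 * A) ((d i : F) ^ 3 * B)).toAffine.Point :=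
    Fintype.sum_equiv e _ _ fun i => rfl
  rw [h3]
  refine Finset.sum_le_sum fun i _ => ?_
  have h4 : (crv ((d i : F) ^ 2 * A) ((d i : F) ^ 3 * B)).baseChange F =
      crv ((d i : F) ^ 2 * A) ((d i : F) ^ 3 * B) := by
    rw [crv_bc, Algebra.algebraMap_self, RingHom.id_apply, RingHom.id_apply]
  rw [key F _ _ h4]
  exact eig_le A B hAB (χ i) (t i) (d i) (ht i) (hdt i) (hσ i) (N i) fun P hP => hP

end Pool.Agent.L0h37.NR
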